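import Pool.Agent.helper53.HF.Main

/-! A finite quotient of a field in any universe is a quotient of a countable field. -/

set_option autoImplicit false

namespace Pool.Agent.helper53.HFX

open Pool.Agent.helper53.HF Cardinal

universe u

/-- the conditions on a quotient map, for a field in any universe -/
def RepU {r : ℕ} (K : Type u) [Field K] (G : Subgroup Kˣ) (f : K → Fin (r+1)) (p : Str r) : Prop :=
  Function.Surjective f ∧ f 0 = 0 ∧
    (∀ x y : K, f x = f y ↔ ∃ g ∈ G, y = x * (g : K)) ∧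
    (∀ x y : K, f (x * y) = p.1 (f x) (f y)) ∧
    (∀ x y : K, p.2 (f x) (f y) = {z | ∃ g ∈ G, ∃ h ∈ G, z = f (x * (g : K) + y * (h : K))})

theorem small_of_rep {r : ℕ} {K : Type u} [Field K] {G : Subgroup Kˣ} {f : K → Fin (r+1)}
    {p : Str r} (h : RepU K G f p) : IsQuot p := by
  classical
  obtain ⟨hs, h0, hf, hm, ha⟩ := h
  obtain ⟨σ, hσ⟩ := hs.hasRightInverse
  have hex : ∀ a b z : Fin (r+1), z ∈ p.2 a b →
      ∃ g ∈ G, ∃ k ∈ G, z = f (σ a * (g : K) + σ b * (k : K)) := by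
    intro a b z hz
    have h1 := ha (σ a) (σ b)
    rw [hσ, hσ] at h1
    rw [h1] at hz
    exact hz
  choose! g hg k hk hgk using hex
  obtain ⟨T, hT⟩ : ∃ T : Set K, T = Set.range σ ∪
      (Set.range (fun t : Fin (r+1) × Fin (r+1) × Fin (r+1) => ((g t.1 t.2.1 t.2.2 : Kˣ) : K)) ∪
       Set.range (fun t : Fin (r+1) × Fin (r+1) × Fin (r+1) => ((k t.1 t.2.1 t.2.2 : Kˣ) : K))) :=
    ⟨_, rfl⟩
  have hTf : T.Finite := by
    rw [hT]
    exact (Set.finite_range _).union ((Set.finite_range _).union (Set.finite_range _))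
  obtain ⟨K', hK'⟩ : ∃ K' : Subfield K, K' = Subfield.closure T := ⟨_, rfl⟩
  have hTK : ∀ x ∈ T, x ∈ K' := by
    intro x hx
    rw [hK']
    exact Subfield.subset_closure hx
  have hc : Countable K' := by
    rw [← Cardinal.mk_le_aleph0_iff, hK']
    refine (Subfield.cardinalMk_closure_le_max T).trans ?_
    rw [max_le_iff]
    exact ⟨Cardinal.mk_le_aleph0_iff.mpr hTf.countable.to_subtype, le_rfl⟩
  obtain ⟨φ, hrange, hmem⟩ : ∃ φ : Shrink.{0} K' →+* K, (∀ x ∈ K', ∃ y, φ y = x) ∧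
      ∀ y, φ y ∈ K' := by
    refine ⟨K'.subtype.comp ((Shrink.ringEquiv.{0, u} K' : Shrink.{0} K' ≃+* K') : Shrink.{0} K' →+* K'), ?_, ?_⟩
    · intro x hx
      refine ⟨(Shrink.ringEquiv.{0, u} K' : Shrink.{0} K' ≃+* K').symm ⟨x, hx⟩, ?_⟩
      simp
    · intro y
      simp
  have hinj : Function.Injective φ := φ.injective
  -- the key fact
  have key : ∀ (x y : Shrink.{0} K') (t : Kˣ), t ∈ G → φ y = φ x * (t : K) →
      ∃ w : (Shrink.{0} K')ˣ, Units.map (φ : Shrink.{0} K' →* K) w ∈ G ∧ y = x * (w : Shrink.{0} K') := by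
    intro x y t ht hxy
    by_cases hx : x = 0
    · refine ⟨1, by rw [map_one]; exact G.one_mem, ?_⟩
      rw [hx, map_zero, zero_mul] at hxy
      rw [hx, zero_mul]
      apply hinj
      rw [hxy, map_zero]
    · have hx' : φ x ≠ 0 := fun h => hx (hinj (by rw [h, map_zero]))
      have hy' : φ y ≠ 0 := by
        rw [hxy]
        exact mul_ne_zero hx' t.ne_zero
      have hy : y ≠ 0 := by
        rintro rfl
        exact hy' (map_zero φ)
      refine ⟨Units.mk0 (y / x) (div_ne_zero hy hx), ?_, ?_⟩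
      · have : Units.map (φ : Shrink.{0} K' →* K) (Units.mk0 (y / x) (div_ne_zero hy hx)) = t := by
          apply Units.ext
          show φ (y / x) = (t : K)
          rw [map_div₀, hxy]
          field_simp
        rw [this]
        exact ht
      · rw [Units.val_mk0]
        field_simp
  refine ⟨Shrink.{0} K', inferInstance, G.comap (Units.map (φ : Shrink.{0} K' →* K)),
    fun x => f (φ x), ?_, ?_, ?_, ?_, ?_⟩
  · intro z
    obtain ⟨y, hy⟩ := hrange (σ z) (hTK _ (by rw [hT]; exact Or.inl ⟨z, rfl⟩))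
    exact ⟨y, by show f (φ y) = z; rw [hy, hσ]⟩
  · show f (φ 0) = 0
    rw [map_zero, h0]
  · intro x y
    show f (φ x) = f (φ y) ↔ _
    rw [hf]
    constructor
    · rintro ⟨t, ht, hxy⟩
      obtain ⟨w, hw, hy⟩ := key x y t ht hxy
      exact ⟨w, hw, hy⟩
    · rintro ⟨w, hw, hy⟩
      refine ⟨Units.map (φ : Shrink.{0} K' →* K) w, hw, ?_⟩
      rw [hy, map_mul]
      rfl
  · intro x y
    show f (φ (x * y)) = _
    rw [map_mul, hm]
  · intro x y
    show p.2 (f (φ x)) (f (φ y)) = _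
    ext z
    constructor
    · intro hz
      obtain ⟨a, haa⟩ : ∃ a, a = f (φ x) := ⟨_, rfl⟩
      obtain ⟨b, hbb⟩ : ∃ b, b = f (φ y) := ⟨_, rfl⟩
      rw [← haa, ← hbb] at hz
      obtain ⟨g1, hg1, e1⟩ := (hf (φ x) (σ a)).1 (by rw [hσ, haa])
      obtain ⟨g2, hg2, e2⟩ := (hf (φ y) (σ b)).1 (by rw [hσ, hbb])
      have m1 : σ a * ((g a b z : Kˣ) : K) ∈ K' := K'.mul_mem
        (hTK _ (by rw [hT]; exact Or.inl ⟨a, rfl⟩))
        (hTK _ (by rw [hT]; exact Or.inr (Or.inl ⟨(a, b, z), rfl⟩)))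
      have m2 : σ b * ((k a b z : Kˣ) : K) ∈ K' := K'.mul_mem
        (hTK _ (by rw [hT]; exact Or.inl ⟨b, rfl⟩))
        (hTK _ (by rw [hT]; exact Or.inr (Or.inr ⟨(a, b, z), rfl⟩)))
      obtain ⟨y1, hy1⟩ := hrange _ m1
      obtain ⟨y2, hy2⟩ := hrange _ m2
      obtain ⟨w1, hw1, e3⟩ := key x y1 (g1 * g a b z) (G.mul_mem hg1 (hg a b z hz))
        (by rw [hy1, e1, Units.val_mul, mul_assoc])
      obtain ⟨w2, hw2, e4⟩ := key y y2 (g2 * k a b z) (G.mul_mem hg2 (hk a b z hz))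
        (by rw [hy2, e2, Units.val_mul, mul_assoc])
      refine ⟨w1, hw1, w2, hw2, ?_⟩
      show z = f (φ (x * (w1 : Shrink.{0} K') + y * (w2 : Shrink.{0} K')))
      rw [← e3, ← e4, map_add, hy1, hy2]
      exact hgk a b z hz
    · rintro ⟨w1, hw1, w2, hw2, e⟩
      have e' : z = f (φ (x * (w1 : Shrink.{0} K') + y * (w2 : Shrink.{0} K'))) := e
      rw [ha]
      refine ⟨_, hw1, _, hw2, ?_⟩
      rw [e', map_add, map_mul, map_mul]
      rfl

end Pool.Agent.helper53.HFX
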