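import Pool.Agent.helper53.HFX.Defs
import Pool.Agent.helper53.HFX.Small

/-! The quantitative theorem on the proportion of quotient hyperfields. -/

set_option autoImplicit false

namespace Pool.Agent.helper53.HFX

open Pool.Agent.helper53.HF Filter Topology

universe u v w

theorem Isom.symm {H : Type u} {H' : Type v} {S : HStr H} {T : HStr H'} (h : Isom S T) :
    Isom T S := by
  obtain ⟨e, h0, h1, h2⟩ := h
  refine ⟨e.symm, ?_, ?_, ?_⟩
  · rw [← h0, Equiv.symm_apply_apply]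
  · intro a b
    apply e.injective
    rw [h1, Equiv.apply_symm_apply, Equiv.apply_symm_apply, Equiv.apply_symm_apply]
  · intro a b
    have h3 := h2 (e.symm a) (e.symm b)
    rw [Equiv.apply_symm_apply, Equiv.apply_symm_apply] at h3
    rw [← h3]
    ext x
    simp

theorem Isom.trans {H : Type u} {H' : Type v} {H'' : Type w} {S : HStr H} {T : HStr H'}
    {R : HStr H''} (h : Isom S T) (h' : Isom T R) : Isom S R := by
  obtain ⟨e, h0, h1, h2⟩ := h
  obtain ⟨e', h0', h1', h2'⟩ := h'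
  refine ⟨e.trans e', ?_, ?_, ?_⟩
  · simp [h0, h0']
  · intro a b
    simp [h1, h1']
  · intro a b
    rw [Equiv.coe_trans, Set.image_comp, h2, h2']
    rfl

theorem Isom.refl {H : Type u} (S : HStr H) : Isom S S :=
  ⟨Equiv.refl _, rfl, fun _ _ => rfl, fun _ _ => by simp⟩

variable {r : ℕ}

/-- the structure given by a pair -/
def toH (p : Str r) : HStr (Fin (r + 1)) := ⟨0, p.1, p.2⟩

theorem toH_iso {p q : Str r} (hp : IsMul p.1) (hq : IsMul q.1) (h : Iso p q) :
    Isom (toH p) (toH q) := by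
  obtain ⟨e, he⟩ := h
  exact ⟨e, map_zero_of_iso hp hq (fun a b => (he a b).1), fun a b => (he a b).1,
    fun a b => (he a b).2⟩

theorem iso_of_toH {p q : Str r} (h : Isom (toH p) (toH q)) : Iso p q := by
  obtain ⟨e, -, h1, h2⟩ := h
  exact ⟨e, fun a b => ⟨h1 a b, h2 a b⟩⟩

theorem isHyperfield_toH {p : Str r} (h : IsHyp p) : IsHyperfield (toH p) := by
  obtain ⟨⟨⟨one, h1, h1'⟩, h2, h3, h4, h5, h6⟩, h7, h8, h9, h10, h11, h12, h13⟩ := h
  refine ⟨h2, h3, h4, h5, ⟨one, h1, h1', ?_⟩, h7, h8, h9, h10, h11, ?_, h13⟩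
  · intro a ha
    obtain ⟨b, hb⟩ := h6 a ha
    have hb1 := hb one
    have hb2 : p.1 a b = one := by
      rw [h2, h1'] at hb1
      exact hb1
    refine ⟨b, ?_, hb2⟩
    rintro rfl
    have h14 : p.1 a (toH p).zero = 0 := by
      show p.1 a 0 = 0
      rw [h2, h4]
    have h15 : p.1 a (toH p).zero = one := hb2
    rw [h14] at h15
    exact h1 h15.symm
  · intro x y z y' hy
    constructor
    · intro hx
      exact h12 x y z y' hx hy
    · intro hz
      have hz' : z ∈ p.2 y' x := by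
        have := hz
        show z ∈ p.2 y' x
        rw [h8]
        exact this
      have hy' : (0 : Fin (r + 1)) ∈ p.2 y' y := by
        rw [h8]
        exact hy
      have := h12 z y' x y hz' hy'
      show x ∈ p.2 y z
      rw [h8]
      exact this

theorem rel_iff {K : Type v} [Field K] (G : Subgroup Kˣ) (x y : K) :
    cl G x = cl G y ↔ ∃ g ∈ G, y = x * (g : K) := by
  unfold cl
  rw [Quotient.eq]
  constructor
  · intro h
    obtain ⟨g, hg⟩ := (MulAction.orbitRel G K).symm h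
    refine ⟨g, g.2, ?_⟩
    have h2 : ((g : Kˣ) • x : K) = y := hg
    rw [← h2, Units.smul_def, smul_eq_mul, mul_comm]
  · rintro ⟨g, hg, rfl⟩
    apply (MulAction.orbitRel G K).symm
    refine ⟨⟨g, hg⟩, ?_⟩
    show ((g : Kˣ) • x : K) = x * (g : K)
    rw [Units.smul_def, smul_eq_mul, mul_comm]

/-- a quotient hyperfield is isomorphic to a quotient structure with the zero `0` -/
theorem exists_pair (S : HStr (Fin (r + 1))) (h : IsQuotientHyperfield.{0, v} S) :
    ∃ p : Str r, IsQuot p ∧ Isom S (toH p) := by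
  obtain ⟨K, _, G, e, e0, em, ea⟩ := h
  let s : Equiv.Perm (Fin (r + 1)) := Equiv.swap S.zero 0
  have hs : s S.zero = 0 := Equiv.swap_apply_left _ _
  refine ⟨(fun a b => s (S.mul (s.symm a) (s.symm b)), fun a b => s '' S.add (s.symm a) (s.symm b)), ?_,
    s, hs, ?_, ?_⟩
  · apply small_of_rep (K := K) (G := G) (f := fun x => s (e.symm (cl G x)))
    refine ⟨?_, ?_, ?_, ?_, ?_⟩
    · intro z
      obtain ⟨x, hx⟩ := Quotient.exists_rep (e (s.symm z))
      refine ⟨x, ?_⟩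
      have hx' : cl G x = e (s.symm z) := hx
      show s (e.symm (cl G x)) = z
      rw [hx', Equiv.symm_apply_apply, Equiv.apply_symm_apply]
    · show s (e.symm (cl G 0)) = 0
      have h1 : e S.zero = cl G 0 := e0
      rw [← h1, Equiv.symm_apply_apply, hs]
    · intro x y
      rw [← rel_iff G x y]
      constructor
      · intro h
        exact e.symm.injective (s.injective h)
      · intro h
        show s (e.symm (cl G x)) = s (e.symm (cl G y))
        rw [h]
    · intro x y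
      show s (e.symm (cl G (x * y))) = s (S.mul (s.symm (s (e.symm (cl G x)))) (s.symm (s (e.symm (cl G y)))))
      rw [Equiv.symm_apply_apply, Equiv.symm_apply_apply]
      congr 1
      rw [Equiv.symm_apply_eq, em, Equiv.apply_symm_apply, Equiv.apply_symm_apply]
      rfl
    · intro x y
      show s '' S.add (s.symm (s (e.symm (cl G x)))) (s.symm (s (e.symm (cl G y)))) = _
      rw [Equiv.symm_apply_apply, Equiv.symm_apply_apply]
      have h1 := ea (e.symm (cl G x)) (e.symm (cl G y))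
      rw [Equiv.apply_symm_apply, Equiv.apply_symm_apply] at h1
      have h2 : S.add (e.symm (cl G x)) (e.symm (cl G y)) = e.symm '' (quot K G).add (cl G x) (cl G y) := by
        rw [← h1]
        ext z
        simp
      rw [h2]
      ext z
      constructor
      · rintro ⟨_, ⟨c, ⟨x', y', hx, hy, hc⟩, rfl⟩, rfl⟩
        obtain ⟨g, hg, rfl⟩ := (rel_iff G x x').1 hx
        obtain ⟨k, hk, rfl⟩ := (rel_iff G y y').1 hy
        exact ⟨g, hg, k, hk, by rw [hc]⟩
      · rintro ⟨g, hg, k, hk, rfl⟩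
        refine ⟨_, ⟨cl G (x * (g : K) + y * (k : K)), ⟨x * (g : K), y * (k : K), ?_, ?_, rfl⟩, rfl⟩, rfl⟩
        · exact (rel_iff G _ _).2 ⟨g, hg, rfl⟩
        · exact (rel_iff G _ _).2 ⟨k, hk, rfl⟩
  · intro a b
    show s (S.mul a b) = s (S.mul (s.symm (s a)) (s.symm (s b)))
    rw [Equiv.symm_apply_apply, Equiv.symm_apply_apply]
  · intro a b
    show s '' S.add a b = s '' S.add (s.symm (s a)) (s.symm (s b))
    rw [Equiv.symm_apply_apply, Equiv.symm_apply_apply]

instance finite_HStr : Finite (HStr (Fin (r + 1))) := by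
  apply Finite.of_injective (β := Fin (r + 1) × Str r) (fun S => (S.zero, S.mul, S.add))
  intro S T h
  cases S
  cases T
  simp only [Prod.mk.injEq] at h
  obtain ⟨h1, h2, h3⟩ := h
  subst h1 h2 h3
  rfl

/-- the class of structures given by a class of pairs -/
def Phi (C : Set (Str r)) : Set (HStr (Fin (r + 1))) :=
  {T | IsHyperfield T ∧ ∃ q ∈ C, Isom (toH q) T}

theorem numQuot_le : numQuot.{v} r ≤ (classes (r := r) IsQuot).ncard := by
  have h1 : isoClasses r (fun S => IsQuotientHyperfield.{0, v} S) ⊆ Phi '' (classes (r := r) IsQuot) := by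
    rintro C ⟨S, hS, hQ, rfl⟩
    obtain ⟨p, hp, hSp⟩ := exists_pair S hQ
    refine ⟨cls IsQuot p, ⟨p, hp, rfl⟩, ?_⟩
    ext T
    constructor
    · rintro ⟨hT, q, ⟨hq, hpq⟩, hqT⟩
      have hp' : IsMul p.1 := by
        obtain ⟨K, _, G, f, h⟩ := hp
        exact Rep.isMul h
      have hq' : IsMul q.1 := by
        obtain ⟨K, _, G, f, h⟩ := hq
        exact Rep.isMul h
      exact ⟨hT, (hSp.trans (toH_iso hp' hq' hpq)).trans hqT⟩
    · rintro ⟨hT, hST⟩
      exact ⟨hT, p, ⟨hp, Iso.refl p⟩, hSp.symm.trans hST⟩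
  calc numQuot.{v} r ≤ (Phi '' (classes (r := r) IsQuot)).ncard :=
        Set.ncard_le_ncard h1 (Set.toFinite _)
    _ ≤ (classes (r := r) IsQuot).ncard := Set.ncard_image_le (Set.toFinite _)

theorem le_numHyp : (classes (r := r) IsHyp).ncard ≤ numHyp r := by
  have hPhi : ∀ p : Str r, IsHyp p → Phi (cls IsHyp p) = {T | IsHyperfield T ∧ Isom (toH p) T} := by
    intro p hp
    ext T
    constructor
    · rintro ⟨hT, q, ⟨hq, hpq⟩, hqT⟩
      exact ⟨hT, (toH_iso hp.1 hq.1 hpq).trans hqT⟩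
    · rintro ⟨hT, hpT⟩
      exact ⟨hT, p, ⟨hp, Iso.refl p⟩, hpT⟩
  apply Set.ncard_le_ncard_of_injOn Phi
  · rintro C ⟨p, hp, rfl⟩
    exact ⟨toH p, isHyperfield_toH hp, trivial, hPhi p hp⟩
  · rintro C ⟨p, hp, rfl⟩ C' ⟨p', hp', rfl⟩ h
    rw [hPhi p hp, hPhi p' hp'] at h
    have h1 : toH p' ∈ {T | IsHyperfield T ∧ Isom (toH p) T} := by
      rw [h]
      exact ⟨isHyperfield_toH hp', Isom.refl _⟩
    have h2 : Iso p p' := iso_of_toH h1.2
    ext q
    constructor
    · rintro ⟨hq, hi⟩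
      exact ⟨hq, h2.symm.trans hi⟩
    · rintro ⟨hq, hi⟩
      exact ⟨hq, h2.trans hi⟩

theorem log_bound2 : ∀ L : ℕ, 12 ≤ L → 180 * (L + 1) + 60 ≤ 2 ^ L := by
  intro L hL
  induction L, hL using Nat.le_induction with
  | base => norm_num
  | succ n hn ih =>
    calc 180 * (n + 1 + 1) + 60 ≤ 2 * (180 * (n + 1) + 60) := by omega
      _ ≤ 2 * 2 ^ n := Nat.mul_le_mul_left _ ih
      _ = 2 ^ (n + 1) := by ring

theorem cond_of_le (hr : 4096 ≤ r) : (r : ℝ) ^ 3 * (3 / 4 : ℝ) ^ ((r : ℝ) / 24) ≤ 1 / 2 := by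
  obtain ⟨L, hL⟩ : ∃ L, L = Nat.log 2 r := ⟨_, rfl⟩
  have hr0 : r ≠ 0 := by omega
  have hL12 : 12 ≤ L := by
    rw [hL]
    exact Nat.le_log_of_pow_le (by norm_num) (by norm_num; exact hr)
  have hb := log_bound2 L hL12
  have hLr : 2 ^ L ≤ r := by
    rw [hL]
    exact Nat.pow_log_le_self 2 hr0
  have hrL : r ≤ 2 ^ (L + 1) := by
    rw [hL]
    exact (Nat.lt_pow_succ_log_self (by norm_num) r).le
  have hb1 : 180 * ((L : ℝ) + 1) + 60 ≤ (r : ℝ) := by
    have : 180 * (L + 1) + 60 ≤ r := le_trans hb hLr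
    exact_mod_cast this
  have hrR : (0 : ℝ) ≤ (r : ℝ) := by positivity
  have h1 : (r : ℝ) ^ 3 ≤ (2 : ℝ) ^ (3 * ((L : ℝ) + 1)) := by
    have h2 : (r : ℝ) ≤ (2 : ℝ) ^ ((L : ℝ) + 1) := by
      have h3 : ((r : ℕ) : ℝ) ≤ ((2 ^ (L + 1) : ℕ) : ℝ) := by exact_mod_cast hrL
      rw [show (L : ℝ) + 1 = ((L + 1 : ℕ) : ℝ) by push_cast; ring, Real.rpow_natCast]
      push_cast at h3
      exact h3
    calc (r : ℝ) ^ 3 ≤ ((2 : ℝ) ^ ((L : ℝ) + 1)) ^ 3 := pow_le_pow_left₀ hrR h2 3
      _ = (2 : ℝ) ^ (3 * ((L : ℝ) + 1)) := by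
          rw [← Real.rpow_natCast, ← Real.rpow_mul (by norm_num)]
          congr 1
          push_cast
          ring
  have h4 : (3 / 4 : ℝ) ^ ((r : ℝ) / 24) ≤ (2 : ℝ) ^ (-(r : ℝ) / 60) := by
    have h5 : (3 / 4 : ℝ) ≤ (2 : ℝ) ^ (-(2 : ℝ) / 5) := by
      have h6 : (3 / 4 : ℝ) ^ (5 : ℕ) ≤ ((2 : ℝ) ^ (-(2 : ℝ) / 5)) ^ (5 : ℕ) := by
        rw [← Real.rpow_natCast ((2 : ℝ) ^ (-(2 : ℝ) / 5)), ← Real.rpow_mul (by norm_num)]
        have : -(2 : ℝ) / 5 * ((5 : ℕ) : ℝ) = -2 := by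
          push_cast
          ring
        rw [this, Real.rpow_neg (by norm_num)]
        norm_num
      exact le_of_pow_le_pow_left₀ (by norm_num) (by positivity) h6
    calc (3 / 4 : ℝ) ^ ((r : ℝ) / 24) ≤ ((2 : ℝ) ^ (-(2 : ℝ) / 5)) ^ ((r : ℝ) / 24) :=
          Real.rpow_le_rpow (by norm_num) h5 (by positivity)
      _ = (2 : ℝ) ^ (-(r : ℝ) / 60) := by
          rw [← Real.rpow_mul (by norm_num)]
          congr 1
          ring
  calc (r : ℝ) ^ 3 * (3 / 4 : ℝ) ^ ((r : ℝ) / 24)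
      ≤ (2 : ℝ) ^ (3 * ((L : ℝ) + 1)) * (2 : ℝ) ^ (-(r : ℝ) / 60) :=
        mul_le_mul h1 h4 (by positivity) (by positivity)
    _ = (2 : ℝ) ^ (3 * ((L : ℝ) + 1) + -(r : ℝ) / 60) := by rw [← Real.rpow_add (by norm_num)]
    _ ≤ (2 : ℝ) ^ (-1 : ℝ) := by
        apply Real.rpow_le_rpow_of_exponent_le (by norm_num)
        linarith
    _ = 1 / 2 := by
        rw [Real.rpow_neg (by norm_num), Real.rpow_one]
        norm_num

theorem hyp_pos (hr : 4096 ≤ r) : 0 < (classes (r := r) IsHyp).ncard := by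
  classical
  obtain ⟨m, hm⟩ := exists_isMul (r := r) (by omega)
  have h6 := labelled_lower (cond_of_le hr) m hm
  have h7 : 0 < ((Finset.univ : Finset (Str r)).filter (fun p => IsHyp p)).card := by
    by_contra hne
    push Not at hne
    have h8 : ((Finset.univ : Finset (Str r)).filter (fun p => IsHyp p)).card = 0 := by omega
    have h9 : (0 : ℝ) < (2 : ℝ) ^ ((r : ℝ) ^ 2 / 6) / 2 := by positivity
    have h10 : ((((Finset.univ : Finset (Str r)).filter (fun p => IsHyp p)).card : ℕ) : ℝ) = 0 := by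
      rw [h8]
      norm_num
    have h11 := lt_of_lt_of_le h9 h6
    have h12 : (0 : ℝ) < ((((Finset.univ : Finset (Str r)).filter (fun p => IsHyp p)).card : ℕ) : ℝ) := by
      exact_mod_cast h11
    linarith
  obtain ⟨p, hp⟩ := Finset.card_pos.mp h7
  rw [Finset.mem_filter] at hp
  rw [Set.ncard_pos (Set.toFinite _)]
  exact ⟨cls IsHyp p, p, hp.2, rfl⟩

theorem bound (hr : 4096 ≤ r) :
    (numQuot.{v} r : ℝ) ≤ 2 * (2 : ℝ) ^ (-(r : ℝ) / 12) * (numHyp r : ℝ) := by
  have h1 := (main_ineq (by omega) (cond_of_le hr)).trans (rhs_bound (by omega : 2048 ≤ r))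
  have h2 : (0 : ℝ) < ((classes (r := r) IsHyp).ncard : ℝ) := by exact_mod_cast hyp_pos hr
  rw [div_le_iff₀ h2] at h1
  have h3 : (numQuot.{v} r : ℝ) ≤ ((classes (r := r) IsQuot).ncard : ℝ) := by
    exact_mod_cast numQuot_le
  have h4 : ((classes (r := r) IsHyp).ncard : ℝ) ≤ (numHyp r : ℝ) := by
    exact_mod_cast le_numHyp
  calc (numQuot.{v} r : ℝ) ≤ 2 * (2 : ℝ) ^ (-(r : ℝ) / 12) * ((classes (r := r) IsHyp).ncard : ℝ) :=
        h3.trans h1
    _ ≤ _ := mul_le_mul_of_nonneg_left h4 (by positivity)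

theorem limit : Tendsto (fun r : ℕ => (numQuot.{v} r : ℝ) / (numHyp r : ℝ)) atTop (𝓝 0) := by
  have hlim : Tendsto (fun r : ℕ => 2 * (2 : ℝ) ^ (-(r : ℝ) / 12)) atTop (𝓝 0) := by
    have hb1 : (0 : ℝ) ≤ (2 : ℝ) ^ (-(1 : ℝ) / 12) := by positivity
    have hb2 : (2 : ℝ) ^ (-(1 : ℝ) / 12) < 1 :=
      Real.rpow_lt_one_of_one_lt_of_neg (by norm_num) (by norm_num)
    have h := (tendsto_pow_atTop_nhds_zero_of_lt_one hb1 hb2).const_mul 2
    rw [mul_zero] at h
    refine h.congr (fun r => ?_)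
    rw [← Real.rpow_natCast, ← Real.rpow_mul (by norm_num)]
    congr 2
    ring
  refine tendsto_of_tendsto_of_tendsto_of_le_of_le' tendsto_const_nhds hlim ?_ ?_
  · exact Eventually.of_forall (fun r => by positivity)
  · filter_upwards [eventually_ge_atTop 4096] with r hr
    have h1 : 0 < numHyp r := lt_of_lt_of_le (hyp_pos hr) le_numHyp
    rw [div_le_iff₀ (by exact_mod_cast h1)]
    exact bound hr

end Pool.Agent.helper53.HFX
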