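import Mathlib

/-!
# Hyperfields, quotient hyperfields, and their numbers (definitions)
-/

set_option autoImplicit false

namespace Pool.Agent.helper53.HFX

universe u v

/-- A set `H` with an element `0`, a multiplication and a hyperaddition (no axioms). -/
structure HStr (H : Type u) where
  zero : H
  mul : H → H → H
  add : H → H → Set H

/-- The axioms of a hyperfield. -/
structure IsHyperfield {H : Type u} (S : HStr H) : Prop where
  mul_comm : ∀ a b, S.mul a b = S.mul b a
  mul_assoc : ∀ a b c, S.mul (S.mul a b) c = S.mul a (S.mul b c)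
  zero_mul : ∀ a, S.mul S.zero a = S.zero
  /-- the nonzero elements are closed under the multiplication -/
  mul_ne_zero : ∀ a b, a ≠ S.zero → b ≠ S.zero → S.mul a b ≠ S.zero
  /-- the nonzero elements have a neutral element and inverses -/
  one_inv : ∃ one, one ≠ S.zero ∧ (∀ a, S.mul one a = a) ∧ ∀ a, a ≠ S.zero → ∃ b, b ≠ S.zero ∧ S.mul a b = one
  add_nonempty : ∀ a b, (S.add a b).Nonempty
  add_comm : ∀ a b, S.add a b = S.add b a
  add_assoc : ∀ a b c, (⋃ x ∈ S.add a b, S.add x c) = ⋃ x ∈ S.add b c, S.add a x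
  zero_add : ∀ a, S.add S.zero a = {a}
  /-- every `a` has a unique `- a` -/
  neg : ∀ a, ∃! b, S.zero ∈ S.add a b
  /-- `x ∈ y + z` if and only if `z ∈ x + (- y)`; here `y'` is `- y` -/
  rev : ∀ x y z y', S.zero ∈ S.add y y' → (x ∈ S.add y z ↔ z ∈ S.add x y')
  distrib : ∀ a x y, S.mul a '' S.add x y = S.add (S.mul a x) (S.mul a y)

/-- `S` and `T` are isomorphic. -/
def Isom {H : Type u} {H' : Type v} (S : HStr H) (T : HStr H') : Prop :=
  ∃ e : H ≃ H', e S.zero = T.zero ∧ (∀ a b, e (S.mul a b) = T.mul (e a) (e b)) ∧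
    ∀ a b, e '' S.add a b = T.add (e a) (e b)

/-- The class of `x` in `K / G`; the classes are the orbits of `G` on `K`: `{0}` and the elements of `Kˣ / G`. -/
def cl {K : Type v} [Field K] (G : Subgroup Kˣ) (x : K) : MulAction.orbitRel.Quotient G K :=
  Quotient.mk (MulAction.orbitRel G K) x

/-- The quotient `K / G` of a field by a group `G` of nonzero elements: `[x] [y] = [x y]`,
`[x] + [y] = {[x' + y'] : x' ∈ [x], y' ∈ [y]}`. -/
def quot (K : Type v) [Field K] (G : Subgroup Kˣ) : HStr (MulAction.orbitRel.Quotient G K) where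
  zero := cl G 0
  mul := Quotient.map₂ (fun x y => x * y) (by
    intro a a' ha b b' hb
    obtain ⟨g, rfl⟩ := ha
    obtain ⟨h, rfl⟩ := hb
    refine ⟨g * h, ?_⟩
    show ((g * h : G) : Kˣ) • (a' * b') = ((g : Kˣ) • a') * ((h : Kˣ) • b')
    rw [Units.smul_def, Units.smul_def, Units.smul_def, smul_eq_mul, smul_eq_mul, smul_eq_mul,
      Subgroup.coe_mul, Units.val_mul]
    ring)
  add a b := {c | ∃ x y : K, a = cl G x ∧ b = cl G y ∧ c = cl G (x + y)}

/-- `S` is isomorphic to `K / G` for a field `K` and a subgroup `G` of `Kˣ`. -/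
def IsQuotientHyperfield {H : Type u} (S : HStr H) : Prop :=
  ∃ (K : Type v) (_ : Field K) (G : Subgroup Kˣ), Isom S (quot K G)

/-- The isomorphism classes of the hyperfields of order `r + 1` with the property `P` (the hyperfields with the
underlying set `Fin (r + 1)`, any zero element, up to isomorphism). -/
def isoClasses (r : ℕ) (P : HStr (Fin (r + 1)) → Prop) : Set (Set (HStr (Fin (r + 1)))) :=
  {C | ∃ S, IsHyperfield S ∧ P S ∧ C = {T | IsHyperfield T ∧ Isom S T}}

/-- `H_r`: the number of the hyperfields of order `r + 1` up to isomorphism. -/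
noncomputable def numHyp (r : ℕ) : ℕ := (isoClasses r (fun _ => True)).ncard

/-- `Q_r`: the number of the quotient hyperfields of order `r + 1` up to isomorphism (fields in the universe `v`). -/
noncomputable def numQuot (r : ℕ) : ℕ := (isoClasses r (fun S => IsQuotientHyperfield.{0, v} S)).ncard

end Pool.Agent.helper53.HFX
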